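import Pool.Agent.H7.ME.Stmts

/-!
Row COBW of the board `me17` (copy of the row of `ld16` of helper36): a vertex of the array is nearly complete to all other parts.
-/

set_option autoImplicit false

open Finset

namespace Pool.ME7

open Pool.Agent.H23.KT Pool.Agent.H46.KW Pool.KQ Pool.GT7 Pool.GU7 Pool.HZ7 Pool.IA7

private lemma COBW_mem {V : Type} (G : SimpleGraph V) {X : Finset V} {u y : V} :
    y ∈ non G X u ↔ y ∈ X ∧ ¬ G.Adj u y := by
  classical
  unfold non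
  rw [mem_filter]

private lemma COBW_card {V : Type} [DecidableEq V] {S T U : Finset V} {x y : ℝ} (h : S ⊆ T ∪ U)
    (hT : (T.card : ℝ) ≤ x) (hU : (U.card : ℝ) ≤ y) : (S.card : ℝ) ≤ x + y := by
  have h1 : (S.card : ℝ) ≤ T.card + U.card := by
    exact_mod_cast (card_le_card h).trans (card_union_le _ _)
  linarith

private lemma COBW_bi {V ι : Type} [DecidableEq V] (s : Finset ι) (t : ι → Finset V) (x : ℝ)
    (h : ∀ l ∈ s, ((t l).card : ℝ) ≤ x) : ((s.biUnion t).card : ℝ) ≤ s.card * x := by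
  have h1 : ((s.biUnion t).card : ℝ) ≤ ((∑ l ∈ s, (t l).card : ℕ) : ℝ) := by
    exact_mod_cast card_biUnion_le
  rw [Nat.cast_sum] at h1
  refine h1.trans ((sum_le_sum h).trans ?_)
  rw [sum_const, nsmul_eq_mul]

/-- The good vertex. -/
private lemma COBW_good {V : Type} [Fintype V] [DecidableEq V] (G : SimpleGraph V) (p r a : ℕ)
    (e C C₅ : ℝ) (D : Finset V) (κ : Fin (p + 4) → V) (A : Fin (p + 4) → Fin (p + 4) → Finset V)
    (hC₅ : 0 < C₅) (he : e ≤ 1 / 8) (he1 : e1 p ≤ 1 / 8) (ha : 2 * ((p : ℝ) + 4) * C₅ < a)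
    (hA : Arr G p r a e C C₅ D κ A) (i j k : Fin (p + 4)) (hki : k ≠ i) (hkj : k ≠ j)
    (z : V) (hz : z ∈ A i j) :
    ∃ y ∈ A i k, y ∈ D ∧ G.Adj z y ∧ ∀ l, l ≠ k → G.Adj (κ l) y := by
  classical
  by_contra hcon
  push Not at hcon
  have hp0 : (0 : ℝ) ≤ p := Nat.cast_nonneg p
  have ha0 : (0 : ℝ) < a := lt_of_le_of_lt (by positivity) ha
  have hsub : A i k ⊆ (nb G univ (κ i) \ D ∪ non G (A i k) z) ∪
      (univ.filter (fun l : Fin (p + 4) => l ≠ i ∧ l ≠ k)).biUnion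
        (fun l => non G (A i k) (κ l)) := by
    intro y hy
    have hyi : G.Adj (κ i) y := (hA.nbr i y).2 ⟨k, hy⟩
    by_cases h1 : y ∈ D
    · by_cases h2 : G.Adj z y
      · obtain ⟨l, hl, hl2⟩ := hcon y hy h1 h2
        refine mem_union_right _ (mem_biUnion.2 ⟨l, mem_filter.2 ⟨mem_univ _, ?_, hl⟩,
          (COBW_mem G).2 ⟨hy, hl2⟩⟩)
        rintro rfl
        exact hl2 hyi
      · exact mem_union_left _ (mem_union_right _ ((COBW_mem G).2 ⟨hy, h2⟩))
    · exact mem_union_left _ (mem_union_left _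
        (mem_sdiff.2 ⟨(mem_nb G).2 ⟨mem_univ _, hyi⟩, h1⟩))
  have c1 : ((nb G univ (κ i) \ D ∪ non G (A i k) z).card : ℝ) ≤ 1 / 4 * a + e1 p * a :=
    COBW_card Subset.rfl (hA.few i) (hA.mis i j k hkj.symm z hz)
  have c2 : (((univ.filter (fun l : Fin (p + 4) => l ≠ i ∧ l ≠ k)).biUnion
      (fun l => non G (A i k) (κ l))).card : ℝ) ≤ ((p : ℝ) + 4) * C₅ := by
    refine (COBW_bi _ _ C₅ fun l hl => ?_).trans ?_
    · obtain ⟨h1, h2⟩ := (mem_filter.1 hl).2
      exact hA.typ i l k h1.symm h2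
    · refine mul_le_mul_of_nonneg_right ?_ hC₅.le
      have h3 : (univ.filter (fun l : Fin (p + 4) => l ≠ i ∧ l ≠ k)).card ≤ p + 4 := by
        refine (card_filter_le _ _).trans ?_
        simp
      have h4 : (((univ.filter (fun l : Fin (p + 4) => l ≠ i ∧ l ≠ k)).card : ℕ) : ℝ) ≤
          ((p + 4 : ℕ) : ℝ) := by exact_mod_cast h3
      push_cast at h4
      exact h4
  have c3 := COBW_card hsub c1 c2
  have c4 := hA.lo i k hki.symm
  nlinarith

/-- The case `q = i`, `l ≠ k`. -/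
private lemma COBW_main {V : Type} [Fintype V] [DecidableEq V] (G : SimpleGraph V) (p r a : ℕ)
    (e C C₅ : ℝ) (D : Finset V) (P : V → Fin (p + 3) → Finset V) (κ : Fin (p + 4) → V)
    (A : Fin (p + 4) → Fin (p + 4) → Finset V)
    (hCl : ∀ v ∈ D, Cl G p r a e C v (P v)) (he1 : 0 ≤ e1 p)
    (hA : Arr G p r a e C C₅ D κ A) (h2 : ∀ i j k l, j ≠ l → Disjoint (A i j) (A k l))
    (i j k : Fin (p + 4)) (hki : k ≠ i) (z : V) (hz : z ∈ A i j)
    (y : V) (hyA : y ∈ A i k) (hyD : y ∈ D) (hyz : G.Adj z y)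
    (hyκ : ∀ l, l ≠ k → G.Adj (κ l) y) (l : Fin (p + 4)) (hli : l ≠ i) (hlk : l ≠ k) :
    ((non G (A l i) z).card : ℝ) ≤ ((p : ℝ) + 4) * e1 p * a := by
  classical
  have ha0 : (0 : ℝ) ≤ a := Nat.cast_nonneg a
  obtain ⟨_, hS⟩ := hCl y hyD
  have hN : ∀ u, G.Adj y u → ∃ m, u ∈ P y m := by
    intro u hu
    rcases (hS.cov u).1 ((mem_nb G).2 ⟨mem_univ _, hu⟩) with h | h
    · exact absurd h (notMem_empty u)
    · exact h
  obtain ⟨m₀, hm₀⟩ := hN (κ i) (hyκ i hki.symm).symm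
  obtain ⟨m₁, hm₁⟩ := hN z hyz.symm
  have hzi : G.Adj (κ i) z := (hA.nbr i z).2 ⟨j, hz⟩
  have hm : m₀ ≠ m₁ := by
    rintro rfl
    exact hS.par.ind m₀ (κ i) hm₀ z hm₁ hzi
  have b1 : ((non G (P y m₀) z).card : ℝ) ≤ e1 p * a := hS.mis m₁ z hm₁ m₀ hm
  -- `y ∈ A l k`
  have hyl : y ∈ A l k := by
    obtain ⟨k', hk'⟩ := (hA.nbr l y).1 (hyκ l hlk)
    by_cases hkk : k' = k
    · rwa [hkk] at hk'
    · exact absurd hk' (disjoint_left.1 (h2 i k l k' (Ne.symm hkk)) hyA)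
  have b2 : ((non G (A l i) y).card : ℝ) ≤ e1 p * a := hA.mis l k i hki y hyl
  have b3 : (((univ.erase m₀).biUnion (fun m => non G (P y m) (κ i))).card : ℝ) ≤
      ((p : ℝ) + 2) * (e1 p * a) := by
    refine (COBW_bi _ _ (e1 p * a) fun m hm => ?_).trans ?_
    · exact hS.mis m₀ (κ i) hm₀ m (mem_erase.1 hm).1
    · refine mul_le_mul_of_nonneg_right ?_ (mul_nonneg he1 ha0)
      rw [card_erase_of_mem (mem_univ _), card_univ, Fintype.card_fin]
      push_cast
      linarith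
  have hsub1 : A l i \ P y m₀ ⊆ non G (A l i) y ∪
      (univ.erase m₀).biUnion (fun m => non G (P y m) (κ i)) := by
    intro x hx
    obtain ⟨hx1, hx2⟩ := mem_sdiff.1 hx
    by_cases hxy : G.Adj y x
    · obtain ⟨m, hm'⟩ := hN x hxy
      have hmm : m ≠ m₀ := by
        rintro rfl
        exact hx2 hm'
      refine mem_union_right _ (mem_biUnion.2 ⟨m, mem_erase.2 ⟨hmm, mem_univ _⟩,
        (COBW_mem G).2 ⟨hm', ?_⟩⟩)
      exact hA.ind l i (κ i) (hA.mem l i hli) x hx1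
    · exact mem_union_left _ ((COBW_mem G).2 ⟨hx1, hxy⟩)
  have b4 := COBW_card hsub1 b2 b3
  have hsub2 : non G (A l i) z ⊆ non G (P y m₀) z ∪ (A l i \ P y m₀) := by
    intro x hx
    obtain ⟨hx1, hx2⟩ := (COBW_mem G).1 hx
    by_cases h : x ∈ P y m₀
    · exact mem_union_left _ ((COBW_mem G).2 ⟨h, hx2⟩)
    · exact mem_union_right _ (mem_sdiff.2 ⟨hx1, h⟩)
  have b5 := COBW_card hsub2 b1 b4
  linarith

theorem COBW_thm (hA : COAWStmt) : COBWStmt := by
  classical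
  intro p r hP C₅ hC
  obtain ⟨a₁, ha₁⟩ := hA p r hP C₅ hC
  refine ⟨max a₁ (⌈2 * ((p : ℝ) + 4) * C₅⌉₊ + 1), ?_⟩
  intro a ha V _ _ G e C D P κ A he he8 hCl hArr i j z hz q hq l hl
  obtain ⟨h1, h2⟩ := ha₁ a (le_trans (le_max_left _ _) ha) G e C D κ A he8 hArr
  have hp0 : (0 : ℝ) ≤ p := Nat.cast_nonneg p
  have haC : 2 * ((p : ℝ) + 4) * C₅ < a := by
    have h3 : ⌈2 * ((p : ℝ) + 4) * C₅⌉₊ + 1 ≤ a := le_trans (le_max_right _ _) ha
    have h4 : ((⌈2 * ((p : ℝ) + 4) * C₅⌉₊ + 1 : ℕ) : ℝ) ≤ a := by exact_mod_cast h3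
    push_cast at h4
    have h5 := Nat.le_ceil (2 * ((p : ℝ) + 4) * C₅)
    linarith
  have ha0 : (0 : ℝ) < a := lt_of_le_of_lt (by positivity) haC
  have he1 : 0 < e1 p := by
    unfold e1
    positivity
  have he1' : e1 p ≤ 1 / 8 := by
    unfold e1
    rw [div_le_div_iff₀ (by positivity) (by norm_num)]
    have h3 : (1 : ℝ) ≤ ((p : ℝ) + 3) ^ 3 := one_le_pow₀ (by linarith)
    linarith
  have he1a : 0 ≤ e1 p * a := by positivity
  have hbig : e1 p * a ≤ ((p : ℝ) + 4) * e1 p * a := by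
    nlinarith
  have step : ∀ (l l' q' : Fin (p + 4)) (x : ℝ), l ≠ q' → l' ≠ q' →
      ((non G (A l' q') z).card : ℝ) ≤ x →
      ((non G (A l q') z).card : ℝ) ≤ x + ((p : ℝ) + 3) * C₅ := by
    intro l l' q' x hl hl' hx
    by_cases hll : l = l'
    · subst hll
      have : 0 ≤ ((p : ℝ) + 3) * C₅ := by positivity
      linarith
    · refine COBW_card (T := non G (A l' q') z) (U := A l q' \ A l' q') ?_ hx
        (h1 l q' l' hl hll (Ne.symm hl'))
      intro x hx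
      obtain ⟨hx1, hx2⟩ := (COBW_mem G).1 hx
      by_cases h : x ∈ A l' q'
      · exact mem_union_left _ ((COBW_mem G).2 ⟨h, hx2⟩)
      · exact mem_union_right _ (mem_sdiff.2 ⟨hx1, h⟩)
  have hij : j ≠ i := by
    rintro rfl
    rw [hArr.emp] at hz
    exact notMem_empty _ hz
  by_cases hqi : q = i
  · subst hqi
    obtain ⟨k, hk⟩ : ∃ k : Fin (p + 4), k ∉ ({q, j} : Finset (Fin (p + 4))) := by
      by_contra hcon
      push Not at hcon
      have h3 : (univ : Finset (Fin (p + 4))) ⊆ {q, j} := fun x _ => hcon x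
      have h4 := (card_le_card h3).trans card_le_two
      rw [card_univ, Fintype.card_fin] at h4
      omega
    have hkq : k ≠ q := fun h => hk (by simp [h])
    have hkj : k ≠ j := fun h => hk (by simp [h])
    obtain ⟨y, hyA, hyD, hyz, hyκ⟩ := COBW_good G p r a e C C₅ D κ A hC he8 he1' haC hArr
      q j k hkq hkj z hz
    have main := COBW_main G p r a e C C₅ D P κ A hCl he1.le hArr h2 q j k hkq z hz y hyA hyD
      hyz hyκ
    by_cases hlk : l = k
    · subst hlk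
      exact step l j q _ hl hij (main j hij (Ne.symm hkj))
    · have := main l hl hlk
      have h5 : 0 ≤ ((p : ℝ) + 3) * C₅ := by positivity
      linarith
  · have h3 := hArr.mis i j q (Ne.symm hq) z hz
    exact step l i q _ hl (Ne.symm hqi) (h3.trans hbig)

theorem cobw_thm (hA : COAWStmt) : COBWStmt := COBW_thm hA

end Pool.ME7
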